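import Mathlib

/-!
# Finitely generated groups of class at most two: separation from normal subgroups
-/

set_option autoImplicit false

namespace Pool.Agent.H93RF

/-- In a group in which commutators are central, `g ↦ g * b * g⁻¹ * b⁻¹` is a homomorphism. -/
theorem comm_mul {G : Type*} [Group G]
    (h2 : ∀ a b c : G, a * b * a⁻¹ * b⁻¹ * c = c * (a * b * a⁻¹ * b⁻¹)) (a a' b : G) :
    (a * a') * b * (a * a')⁻¹ * b⁻¹ = (a * b * a⁻¹ * b⁻¹) * (a' * b * a'⁻¹ * b⁻¹) := by
  have h := h2 a' b a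
  calc (a * a') * b * (a * a')⁻¹ * b⁻¹
      = a * (a' * b * a'⁻¹ * b⁻¹) * b * a⁻¹ * b⁻¹ := by group
    _ = (a' * b * a'⁻¹ * b⁻¹) * a * b * a⁻¹ * b⁻¹ := by rw [h]
    _ = (a' * b * a'⁻¹ * b⁻¹) * (a * b * a⁻¹ * b⁻¹) := by group
    _ = (a * b * a⁻¹ * b⁻¹) * (a' * b * a'⁻¹ * b⁻¹) := by rw [h2 a' b (a * b * a⁻¹ * b⁻¹)]

/-- The homomorphism `g ↦ g * b * g⁻¹ * b⁻¹`. -/
def commHom {G : Type*} [Group G]
    (h2 : ∀ a b c : G, a * b * a⁻¹ * b⁻¹ * c = c * (a * b * a⁻¹ * b⁻¹)) (b : G) : G →* G where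
  toFun a := a * b * a⁻¹ * b⁻¹
  map_one' := by group
  map_mul' a a' := comm_mul h2 a a' b

theorem finite_of_minimal {Q : Type*} [Group Q] [Group.FG Q]
    (h2 : ∀ a b c : Q, a * b * a⁻¹ * b⁻¹ * c = c * (a * b * a⁻¹ * b⁻¹)) (y : Q) (hy : y ≠ 1)
    (hmin : ∀ N : Subgroup Q, N.Normal → N ≠ ⊥ → y ∈ N) : Finite Q := by
  classical
  -- central elements have finite order
  have htor : ∀ z : Q, z ∈ Subgroup.center Q → ∃ n : ℕ, 0 < n ∧ z ^ n = 1 := by
    intro z hz
    by_contra hcon
    push Not at hcon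
    have hn : ∀ m : ℕ, 0 < m → y ∈ Subgroup.zpowers (z ^ m) := by
      intro m hm
      refine hmin _ ⟨?_⟩ ?_
      · intro n hn g
        have hnz : n ∈ Subgroup.center Q :=
          (Subgroup.zpowers_le.2 (Subgroup.pow_mem _ hz m)) hn
        have : g * n * g⁻¹ = n := by
          rw [Subgroup.mem_center_iff.1 hnz g]; group
        rw [this]; exact hn
      · intro hbot
        have : z ^ m = 1 := by
          have := Subgroup.mem_zpowers (z ^ m)
          rw [hbot] at this
          exact Subgroup.mem_bot.1 this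
        exact hcon m hm this
    obtain ⟨k, hk⟩ := Subgroup.mem_zpowers_iff.1 (hn 1 one_pos)
    have hk' : z ^ k = y := by simpa using hk
    have hk0 : k ≠ 0 := by
      rintro rfl
      exact hy (by simpa using hk'.symm)
    have hinj : ∀ a : ℤ, z ^ a = 1 → a = 0 := by
      intro a ha
      by_contra ha0
      have h1 : z ^ a.natAbs = 1 := by
        rcases Int.natAbs_eq a with h | h
        · rw [h] at ha
          simpa using ha
        · rw [h, zpow_neg, inv_eq_one] at ha
          simpa using ha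
      exact hcon a.natAbs (Int.natAbs_pos.2 ha0) h1
    obtain ⟨l, hl⟩ := Subgroup.mem_zpowers_iff.1 (hn (2 * k.natAbs)
      (by have := Int.natAbs_pos.2 hk0; omega))
    have h3 : z ^ (((2 * k.natAbs : ℕ) : ℤ) * l - k) = 1 := by
      rw [zpow_sub, zpow_mul, zpow_natCast, hl, hk', mul_inv_cancel]
    have h4 := hinj _ h3
    have h5 : (k : ℤ) = 2 * (k.natAbs * l) := by
      rw [Nat.cast_mul, Nat.cast_two] at h4
      linarith
    rcases Int.natAbs_eq k with h | h
    · have h6 : (1 : ℤ) = 2 * l := by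
        have h7 : k * 1 = k * (2 * l) := by
          rw [← h] at h5; linarith
        exact mul_left_cancel₀ hk0 h7
      omega
    · have h6 : (1 : ℤ) = 2 * (-l) := by
        have h8 : ((k.natAbs : ℕ) : ℤ) = -k := by linarith
        have h7 : k * 1 = k * (2 * (-l)) := by
          rw [h8] at h5; linarith
        exact mul_left_cancel₀ hk0 h7
      omega
  have hcomm : ∀ a b : Q, a * b * a⁻¹ * b⁻¹ ∈ Subgroup.center Q := fun a b =>
    Subgroup.mem_center_iff.2 fun g => (h2 a b g).symm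
  obtain ⟨S, hS⟩ : ∃ S : Finset Q, Subgroup.closure (S : Set Q) = ⊤ :=
    Group.fg_def.1 (inferInstance : Group.FG Q)
  -- an exponent for the commutators of the generators
  obtain ⟨e, he0, he⟩ : ∃ e : ℕ, 0 < e ∧ ∀ a ∈ S, ∀ b ∈ S, (a * b * a⁻¹ * b⁻¹) ^ e = 1 := by
    choose f hf0 hf using fun z : Subgroup.center Q => htor z z.2
    refine ⟨∏ p ∈ S ×ˢ S, f ⟨p.1 * p.2 * p.1⁻¹ * p.2⁻¹, hcomm p.1 p.2⟩,
      Finset.prod_pos fun p _ => hf0 _, ?_⟩
    intro a ha b hb
    have hd := Finset.dvd_prod_of_mem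
      (fun p : Q × Q => f ⟨p.1 * p.2 * p.1⁻¹ * p.2⁻¹, hcomm p.1 p.2⟩)
      (Finset.mk_mem_product ha hb)
    obtain ⟨c, hc⟩ := hd
    rw [hc, pow_mul]
    have := hf ⟨a * b * a⁻¹ * b⁻¹, hcomm a b⟩
    simp only at this
    rw [this, one_pow]
  -- a commutator with fixed first entry, too
  have hswap : ∀ a b : Q, a * b * a⁻¹ * b⁻¹ = (b * a * b⁻¹ * a⁻¹)⁻¹ := fun a b => by group
  have hpow : ∀ a b : Q, ∀ n : ℕ, a ^ n * b * (a ^ n)⁻¹ * b⁻¹ = (a * b * a⁻¹ * b⁻¹) ^ n := by
    intro a b n
    exact map_pow (commHom h2 b) a n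
  have step1 : ∀ b ∈ S, ∀ a : Q, (a * b * a⁻¹ * b⁻¹) ^ e = 1 := by
    intro b hb a
    have ha : a ∈ Subgroup.closure (S : Set Q) := by rw [hS]; trivial
    induction ha using Subgroup.closure_induction with
    | mem x hx => exact he x hx b hb
    | one => simp
    | mul x z _ _ hx hz =>
      rw [comm_mul h2 x z b]
      have hc : Commute (x * b * x⁻¹ * b⁻¹) (z * b * z⁻¹ * b⁻¹) := h2 x b _
      rw [hc.mul_pow, hx, hz, one_mul]
    | inv x _ hx =>
      have h := map_inv (commHom h2 b) x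
      change x⁻¹ * b * x⁻¹⁻¹ * b⁻¹ = (x * b * x⁻¹ * b⁻¹)⁻¹ at h
      rw [h, inv_pow, hx, inv_one]
  have step2 : ∀ a b : Q, (a * b * a⁻¹ * b⁻¹) ^ e = 1 := by
    intro a b
    rw [hswap a b, inv_pow, inv_eq_one]
    have hb : b ∈ Subgroup.closure (S : Set Q) := by rw [hS]; trivial
    induction hb using Subgroup.closure_induction with
    | mem x hx =>
      rw [hswap x a, inv_pow, inv_eq_one]
      exact step1 x hx a
    | one => simp
    | mul x z _ _ hx hz =>
      rw [comm_mul h2 x z a]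
      have hc : Commute (x * a * x⁻¹ * a⁻¹) (z * a * z⁻¹ * a⁻¹) := h2 x a _
      rw [hc.mul_pow, hx, hz, one_mul]
    | inv x _ hx =>
      have h := map_inv (commHom h2 a) x
      change x⁻¹ * a * x⁻¹⁻¹ * a⁻¹ = (x * a * x⁻¹ * a⁻¹)⁻¹ at h
      rw [h, inv_pow, hx, inv_one]
  have hcen : ∀ g : Q, g ^ e ∈ Subgroup.center Q := by
    intro g
    refine Subgroup.mem_center_iff.2 fun h => ?_
    have h1 := hpow g h e
    rw [step2 g h] at h1
    have h3 : g ^ e * h * (g ^ e)⁻¹ = h := by
      rw [mul_inv_eq_one] at h1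
      exact h1
    rw [mul_inv_eq_iff_eq_mul] at h3
    exact h3.symm
  -- the quotient by the centre
  have hab : ∀ a b : Q ⧸ Subgroup.center Q, a * b = b * a := by
    intro a b
    induction a using QuotientGroup.induction_on with
    | H a =>
      induction b using QuotientGroup.induction_on with
      | H b =>
        rw [← QuotientGroup.mk_mul, ← QuotientGroup.mk_mul, QuotientGroup.eq]
        have : (a * b)⁻¹ * (b * a) = b⁻¹ * a⁻¹ * b⁻¹⁻¹ * a⁻¹⁻¹ := by group
        rw [this]
        exact hcomm _ _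
  letI : CommGroup (Q ⧸ Subgroup.center Q) :=
    { (inferInstance : Group (Q ⧸ Subgroup.center Q)) with mul_comm := hab }
  have hfin1 : Finite (Q ⧸ Subgroup.center Q) := by
    haveI : Group.FG (Q ⧸ Subgroup.center Q) := QuotientGroup.fg _
    refine CommGroup.finite_of_fg_isMulTorsion _ fun x => ?_
    induction x using QuotientGroup.induction_on with
    | H x =>
      rw [isOfFinOrder_iff_pow_eq_one]
      refine ⟨e, he0, ?_⟩
      rw [← QuotientGroup.mk_pow, QuotientGroup.eq_one_iff]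
      exact hcen x
  haveI : (Subgroup.center Q).FiniteIndex := ⟨by
    rw [Subgroup.index]
    exact Nat.card_pos.ne'⟩
  have hfin2 : Finite (Subgroup.center Q) := by
    letI : CommGroup (Subgroup.center Q) :=
      { (inferInstance : Group (Subgroup.center Q)) with
        mul_comm := fun a b => Subtype.ext (Subgroup.mem_center_iff.1 b.2 a) }
    haveI : Group.FG (Subgroup.center Q) := inferInstance
    refine CommGroup.finite_of_fg_isMulTorsion _ fun x => ?_
    rw [isOfFinOrder_iff_pow_eq_one]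
    obtain ⟨n, hn, hx⟩ := htor x x.2
    exact ⟨n, hn, Subtype.ext hx⟩
  exact Finite.of_subgroup_quotient (H := Subgroup.center Q)

theorem rf {G : Type*} [Group G] [Group.FG G]
    (h2 : ∀ a b c : G, a * b * a⁻¹ * b⁻¹ * c = c * (a * b * a⁻¹ * b⁻¹))
    (C : Subgroup G) [C.Normal] (y : G) (hy : y ∉ C) :
    ∃ K : Subgroup G, K.Normal ∧ K.FiniteIndex ∧ C ≤ K ∧ y ∉ K := by
  classical
  obtain ⟨K, hCK, hK⟩ := zorn_le_nonempty₀ {K : Subgroup G | K.Normal ∧ y ∉ K}
    (fun c hc hchain K0 hK0 => by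
      refine ⟨sSup c, ⟨⟨?_⟩, ?_⟩, fun z hz => le_sSup hz⟩
      · intro n hn g
        rw [Subgroup.mem_sSup_of_directedOn ⟨K0, hK0⟩ hchain.directedOn] at hn ⊢
        obtain ⟨L, hL, hn⟩ := hn
        exact ⟨L, hL, (hc hL).1.conj_mem n hn g⟩
      · intro hyc
        rw [Subgroup.mem_sSup_of_directedOn ⟨K0, hK0⟩ hchain.directedOn] at hyc
        obtain ⟨L, hL, hn⟩ := hyc
        exact (hc hL).2 hn) C ⟨inferInstance, hy⟩
  haveI := hK.prop.1
  refine ⟨K, hK.prop.1, ?_, hCK, hK.prop.2⟩
  haveI : Group.FG (G ⧸ K) := QuotientGroup.fg _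
  have hfin : Finite (G ⧸ K) := by
    refine finite_of_minimal (Q := G ⧸ K) ?_ (y : G ⧸ K) ?_ ?_
    · intro a b c
      induction a using QuotientGroup.induction_on with
      | H a =>
        induction b using QuotientGroup.induction_on with
        | H b =>
          induction c using QuotientGroup.induction_on with
          | H c => exact congrArg (fun g : G => (g : G ⧸ K)) (h2 a b c)
    · intro h
      exact hK.prop.2 ((QuotientGroup.eq_one_iff y).1 h)
    · intro N hN hne
      by_contra hyN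
      haveI := hN
      have hmem : (N.comap (QuotientGroup.mk' K)) ∈ {K : Subgroup G | K.Normal ∧ y ∉ K} :=
        ⟨inferInstance, fun h => hyN (Subgroup.mem_comap.1 h)⟩
      have hle : K ≤ N.comap (QuotientGroup.mk' K) := by
        intro k hk
        rw [Subgroup.mem_comap, QuotientGroup.mk'_apply, (QuotientGroup.eq_one_iff k).2 hk]
        exact N.one_mem
      have hle' := hK.le_of_ge hmem hle
      apply hne
      rw [eq_bot_iff]
      intro n hn
      induction n using QuotientGroup.induction_on with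
      | H n =>
        have : n ∈ K := hle' (Subgroup.mem_comap.2 hn)
        exact Subgroup.mem_bot.2 ((QuotientGroup.eq_one_iff n).2 this)
  exact ⟨by rw [Subgroup.index]; exact Nat.card_pos.ne'⟩

end Pool.Agent.H93RF
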